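import Mathlib
import Pool.Agent.Lib.H35V.D
import Pool.Agent.Lib.H35U.IsoB
import Pool.Agent.Lib.H55G.J4

/-! # H35V: transport of the conclusions to isogenous curves, without the hypothesis on the bad primes -/

open NumberField IsDedekindDomain WeierstrassCurve

namespace H35V

open H55P (IQ embF eF LF Per IsHecke Pt ac Inert Dec Nm UnitP UnrP PExt)
open H55K H55K.TQ
open H13R (NoRel LUnitG i1_norel i1_same i1_lunit i1_sel)
open H28I (TW Same tw_prime iso6_symm selnon_iso same_int same_non sha_iso pts_iso a0_disc)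
open H35U (OverB NT nt_same selB_rest bsdB_iff)
open H55G (OkM lfun_tw okm_tw)

variable {F : Type} [Field F] [NumberField F] [IQ F] {W W' : WeierstrassCurve ℤ} {Om : ℂ} {m : Ideal (𝓞 F)}
    {ψ : Ideal (𝓞 F) →*₀ 𝓞 F} {kap : ℤ} {e t u lam : ℚ} {p : ℕ}

theorem bsd_tw (h : TW F W W' Om m ψ kap e t u lam) (hp' : PrimeH F (W'⁄(𝓞 F)) p) (X : Type) [Field X] [NumberField X]
    (ι : X →ₐ[ℚ] AlgebraicClosure F) : BSDPG p W' X ↔ BSDPG p W X := by
  classical
  have hp := (tw_prime h).1 hp'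
  have hS := i1_same h hp X (lfun_tw h X)
  rw [bsdB_iff h.base hp X ι, ← i1_sel hp.prime hp.five hS, ← i1_lunit hS]
  constructor
  · rintro ⟨⟨h1, -, -, h2⟩, h3⟩
    exact ⟨h1, (H13R.an_iff hp.prime h2).1 h3⟩
  · rintro ⟨h1, h2⟩
    obtain ⟨-, r1, r2, r3⟩ := selB_rest h.base hp X ι ((i1_sel hp.prime hp.five hS).1 h1)
    obtain ⟨q1, q2⟩ := pts_iso hp.prime hp.five (a0_disc hS.disc' X) hS.iso r2 r3
    exact ⟨⟨h1, sha_iso hp.prime hp.five hS.iso r1, q1, q2⟩, (H13R.an_iff hp.prime q2).2 h2⟩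

/-- The conclusions for isogenous curves. -/
theorem over_tw (h : TW F W W' Om m ψ kap e t u lam) (hp' : PrimeH F (W'⁄(𝓞 F)) p)
    (M K : Type) [Field M] [NumberField M] [Field K] [NumberField K] (ιM : M →ₐ[ℚ] AlgebraicClosure F)
    (ιK : K →ₐ[ℚ] AlgebraicClosure F) (hO : OverB F p W M K ιM ιK) : OverB F p W' M K ιM ιK := by
  classical
  have hp := (tw_prime h).1 hp'
  have hSM := i1_same h hp M (lfun_tw h M)
  have hSK := i1_same h hp K (lfun_tw h K)
  refine ⟨?_, ?_, fun hN => ?_, fun hT => ?_, fun hT => ?_, fun hT hN => ?_, fun hT => ?_⟩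
  · rw [i1_norel h, i1_sel hp.prime hp.five hSK, i1_sel hp.prime hp.five hSM]
    exact hO.sel
  · rw [i1_norel h, bsd_tw h hp' K ιK, bsd_tw h hp' M ιM]
    exact hO.bsd
  · rw [i1_norel h] at hN
    exact selnon_iso hp.prime hp.five hSK.iso (hO.selnon hN)
  · exact same_int hSK (hO.int ((nt_same hp.prime hp.five hSM).1 hT))
  · rw [i1_norel h, i1_lunit hSK, i1_lunit hSM]
    exact hO.lval ((nt_same hp.prime hp.five hSM).1 hT)
  · rw [i1_norel h] at hN
    exact same_non hSK (hO.annon ((nt_same hp.prime hp.five hSM).1 hT) hN)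
  · rw [i1_sel hp.prime hp.five hSM] at hT
    exact (nt_same hp.prime hp.five hSM).2 (hO.nt hT)

/-- The conclusions for arbitrary ramification for isogenous curves. -/
theorem overP_tw (h : TW F W W' Om m ψ kap e t u lam) (hp' : PrimeH F (W'⁄(𝓞 F)) p)
    (M K : Type) [Field M] [NumberField M] [Field K] [NumberField K] (ιM : M →ₐ[ℚ] AlgebraicClosure F)
    (ιK : K →ₐ[ℚ] AlgebraicClosure F) (hO : OverP F p W M K ιM ιK) : OverP F p W' M K ιM ιK := by
  classical
  have hp := (tw_prime h).1 hp'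
  have hSM := i1_same h hp M (lfun_tw h M)
  have hSK := i1_same h hp K (lfun_tw h K)
  refine ⟨?_, fun hN => ?_, fun hT => ?_, fun hT => ?_⟩
  · rw [i1_sel hp.prime hp.five hSK, i1_sel hp.prime hp.five hSM]
    exact hO.dn
  · rw [i1_norel h] at hN
    exact selnon_iso hp.prime hp.five hSK.iso (hO.selnon hN)
  · exact same_int hSK (hO.int ((nt_same hp.prime hp.five hSM).1 hT))
  · rw [i1_sel hp.prime hp.five hSM] at hT
    exact (nt_same hp.prime hp.five hSM).2 (hO.nt hT)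

theorem towerO_tw (h : TW F W W' Om m ψ kap e t u lam) (M K : Type) [Field M] [NumberField M] [Field K] [NumberField K]
    (ιM : M →ₐ[ℚ] AlgebraicClosure F) (ιK : K →ₐ[ℚ] AlgebraicClosure F) (hT : TowerO F p W' M K ιM ιK) : TowerO F p W M K ιM ιK :=
  ⟨hT.sub, hT.ext, (okm_tw h _).1 hT.ok⟩

theorem towerP_tw (h : TW F W W' Om m ψ kap e t u lam) (M K : Type) [Field M] [NumberField M] [Field K] [NumberField K]
    (ιM : M →ₐ[ℚ] AlgebraicClosure F) (ιK : K →ₐ[ℚ] AlgebraicClosure F) (hT : TowerP F p W' M K ιM ιK) : TowerP F p W M K ιM ιK :=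
  ⟨hT.sub, hT.ext, (okm_tw h _).1 hT.ok⟩

end H35V
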