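import Mathlib
import Pool.Agent.Lib.H35V.Iso
import Pool.Agent.Lib.H28I.A1
import Pool.Agent.Lib.SSU.A7

/-! # H35V: the base field ℚ -/

open NumberField IsDedekindDomain WeierstrassCurve

namespace H35V

open H55P (IQ embF eF LF Per IsHecke Pt ac Inert Dec Nm UnitP UnrP PExt RamF Ram)
open H55K H55K.TQ
open H13R (NoRel LUnitG i1_same i1_lunit)
open H28I (TW Same tw_prime tw_supp)
open H35U (OverB NT nt_up nt_down nt_same)
open H35M (NoTor)
open H55G (OkM lfun_tw okm_tw)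

/-- FK is contained in a Galois extension L of F of degree a power of p; if p is inert in F then the second ramification groups of L over F at
the primes above p are trivial. -/
def TowerA (F : Type) [Field F] [NumberField F] (p : ℕ) (K : Type) [Field K] [NumberField K] (ιK : K →ₐ[ℚ] AlgebraicClosure F) : Prop :=
  ∃ (L : IntermediateField F (AlgebraicClosure F)) (_ : NumberField L), PExt p ⊥ L ∧
    ((Ideal.span {(p : 𝓞 F)}).IsPrime → SSU.G2F p (⊥ : IntermediateField F (AlgebraicClosure F)) L) ∧ KG F K ιK ≤ L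

/-- The conclusions over K, base field ℚ. NoAn: no prime v of F, not dividing the discriminant of W, with p | #W(k_v), is ramified in FK. -/
structure OverA (F : Type) [Field F] [NumberField F] (p : ℕ) (W : WeierstrassCurve ℤ) (K : Type) [Field K] [NumberField K]
    (ιK : K →ₐ[ℚ] AlgebraicClosure F) : Prop where
  int : AnIntG p W K
  crit : AnUnitG p W K ↔ AnUnitG p W ℚ ∧ NoAn p (W⁄(𝓞 F)) (KG F K ιK)
  bsd : AnUnitG p W K → BSDPG p W K
  non : ¬ NoAn p (W⁄(𝓞 F)) (KG F K ιK) → AnNonG p W K ∧ H13Z.SelNonT (W⁄K) p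

variable {F : Type} [Field F] [NumberField F] [IQ F] {W W' : WeierstrassCurve ℤ} {Om : ℂ}
    {m : Ideal (𝓞 F)} {ψ : Ideal (𝓞 F) →*₀ 𝓞 F} {p : ℕ}

theorem norel_bot (W₀ : WeierstrassCurve (𝓞 F)) (K : IntermediateField F (AlgebraicClosure F)) (B : IntermediateField F (AlgebraicClosure F))
    [NumberField B] (hB : B = ⊥) : NoRel p W₀ B K ↔ NoAn p W₀ K := by
  classical
  subst hB
  constructor
  · intro h v₀ hr hΔ
    obtain ⟨v, h1, h2, h3⟩ := H55P.bot_conv' W₀ K v₀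
    rw [← h3]
    exact h v (h2 hr) fun h4 => hΔ ((h1 _).2 h4)
  · intro h v hr hΔ
    obtain ⟨v₀, h1, h2, h3⟩ := H55P.bot_conv W₀ K v
    rw [h3]
    exact h v₀ (h2 hr) fun h4 => hΔ ((h1 _).1 h4)

theorem kgq (ι₀ : ℚ →ₐ[ℚ] AlgebraicClosure F) : KG F ℚ ι₀ = ⊥ :=
  kg_rat F ℚ (fun x => ⟨x, (Rat.cast_id x).symm⟩) ι₀

/-- If the analytic part holds over K and there are no points of order p, then p does not divide the number of points. -/
theorem nt_card (hp : p.Prime) (K : Type) [Field K] [NumberField K] (hN : NT p W K) (hA : AnUnitG p W K) :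
    ¬ p ∣ Nat.card (W⁄K).toAffine.Point := by
  classical
  intro hd
  obtain ⟨⟨L, hL⟩, Λ, -, -, -, h5⟩ := hA
  have h6 := h5 L hL
  by_cases h0 : Nat.card (W⁄K).toAffine.Point = 0
  · obtain ⟨V, hV⟩ := H55P.exists_above_p p hp
    have h7 := h6 V hV
    rw [shaG_lG, h0, Nat.cast_zero, zero_pow two_ne_zero, mul_zero, map_zero] at h7
    exact zero_ne_one h7
  · have hfin : Finite (W⁄K).toAffine.Point := Nat.finite_of_card_ne_zero h0
    have : Fact p.Prime := ⟨hp⟩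
    obtain ⟨P, hP⟩ := exists_prime_addOrderOf_dvd_card' p hd
    have h8 : p • P = 0 := by
      rw [← hP]
      exact addOrderOf_nsmul_eq_zero P
    have h9 := hN P h8
    rw [h9, addOrderOf_zero] at hP
    exact hp.one_lt.ne hP

theorem abs_of (hp : p.Prime) {K : Type} [Field K] [NumberField K] {ι₀ : ℚ →ₐ[ℚ] AlgebraicClosure F} {ιK : K →ₐ[ℚ] AlgebraicClosure F}
    (hres : AnUnitG p W ℚ → BSDPG p W ℚ) (hlq : LUnitG p W ℚ → AnUnitG p W ℚ) (hO : OverB F p W ℚ K ι₀ ιK) (hQ : NT p W ℚ)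
    (hK : NT p W K) : OverA F p W K ιK := by
  have hn := norel_bot (p := p) (W⁄(𝓞 F)) (KG F K ιK) (KG F ℚ ι₀) (kgq ι₀)
  have h1 : AnUnitG p W K → AnUnitG p W ℚ ∧ NoAn p (W⁄(𝓞 F)) (KG F K ιK) := by
    intro h
    have h2 := (H13R.an_iff hp (nt_card hp K hK h)).1 h
    obtain ⟨h3, h4⟩ := (hO.lval hQ).1 h2
    exact ⟨hlq h3, hn.1 h4⟩
  have h2 : AnUnitG p W ℚ ∧ NoAn p (W⁄(𝓞 F)) (KG F K ιK) → BSDPG p W K := fun h => hO.bsd.2 ⟨hres h.1, hn.2 h.2⟩
  exact ⟨hO.int hQ, ⟨h1, fun h => (h2 h).2⟩, fun h => h2 (h1 h), fun h =>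
    ⟨hO.annon hQ fun h3 => h (hn.1 h3), hO.selnon fun h3 => h (hn.1 h3)⟩⟩

/-- No points of order p over ℚ and over K. -/
theorem nt_K (hH : BaseH F (W⁄(𝓞 F)) Om m ψ) (hp : PrimeH F (W⁄(𝓞 F)) p) (K : Type) [Field K] [NumberField K]
    (ιK : K →ₐ[ℚ] AlgebraicClosure F) {L : IntermediateField F (AlgebraicClosure F)} (hL : PExt p ⊥ L) (hKL : KG F K ιK ≤ L) :
    NT p W K := by
  have hbn : NumberField (⊥ : IntermediateField F (AlgebraicClosure F)) := H16C.FR_numberField _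
  have hd : W.Δ ≠ 0 := H35U.disc_neB hH hp
  have hU : UnrP p (⊥ : IntermediateField F (AlgebraicClosure F)) := by
    obtain ⟨L', hLn', ι, hL', hU', hKL', -⟩ := sub_setup (F := F) p hp.prime ℚ F inferInstance 0
      (by rw [pow_zero, Module.finrank_self]) hp.unr
    exact H13R.unr_le hp.prime bot_le hU'
  exact nt_down (F := F) hd K ιK fun T hT hf => H13R.tors_KR hH hp hU hL hKL T hT hf

theorem lq_aq (hH : BaseH F (W⁄(𝓞 F)) Om m ψ) (hp : PrimeH F (W⁄(𝓞 F)) p) (h : LUnitG p W ℚ) : AnUnitG p W ℚ := by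
  have hbn : NumberField (⊥ : IntermediateField F (AlgebraicClosure F)) := H16C.FR_numberField _
  obtain ⟨L, hLn, ι, hL, hU, hKL, -⟩ := sub_setup (F := F) p hp.prime ℚ F inferInstance 0
    (by rw [pow_zero, Module.finrank_self]) hp.unr
  have hLf : FiniteDimensional F L := hL.fin
  have hKf : FiniteDimensional F (KG F ℚ ι) := H55P.finDim_of_le hKL
  have hKn : NumberField (KG F ℚ ι) := H16C.FR_numberField _
  have hI := (main_F hH hp hL hKL (f2_unrG hp hL hU ℚ ι hKL)).1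
  exact (H55K.TQ.an_iff hH hp hL hU ℚ ι hKL).2
    ((H13R.lunit_iff hH hp ℚ (KG F ℚ ι) (lrel hH hp hL ℚ ι hKL) (f2_unr hp hL hU ℚ ι hKL) hI).1 h)

theorem towerO_Q (hH : BaseH F (W⁄(𝓞 F)) Om m ψ) (K : Type) [Field K] [NumberField K] (ι₀ : ℚ →ₐ[ℚ] AlgebraicClosure F)
    (ιK : K →ₐ[ℚ] AlgebraicClosure F) (hT : TowerA F p K ιK) : TowerO F p W ℚ K ι₀ ιK := by
  have hG := kgq (F := F) ι₀
  obtain ⟨L, hLn, h1, h2, h3⟩ := hT
  refine ⟨?_, ⟨L, hLn, ?_, ?_, h3⟩, ?_⟩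
  · rw [hG]
    exact bot_le
  · rw [hG]
    exact h1
  · rw [hG]
    exact h2
  · have hb := H13R.bad_unr hH (KG F ℚ ι₀) fun v _ => ramF_bot _ hG v
    exact fun w hw hg => absurd hg (hb w hw)

/-- The theorem over ℚ, complex multiplication by the integers of F. -/
theorem main_A (hH : BaseH F (W⁄(𝓞 F)) Om m ψ) (hp : PrimeH F (W⁄(𝓞 F)) p) (K : Type) [Field K] [NumberField K]
    (ιK : K →ₐ[ℚ] AlgebraicClosure F) (hT : TowerA F p K ιK)
    (hM : ∀ ι₀ : ℚ →ₐ[ℚ] AlgebraicClosure F, TowerO F p W ℚ K ι₀ ιK → OverB F p W ℚ K ι₀ ιK) : OverA F p W K ιK := by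
  obtain ⟨L, hLn, h1, h2, h3⟩ := hT
  have hQ : NT p W ℚ := by
    refine nt_K hH hp ℚ (Algebra.ofId ℚ (AlgebraicClosure F)) h1 ?_
    rw [kgq]
    exact bot_le
  exact abs_of hp.prime (main_Q hH hp ℚ (H28I.subUF_Q (F := F) hp)).2.1 (lq_aq hH hp)
    (hM (Algebra.ofId ℚ (AlgebraicClosure F)) (towerO_Q hH K _ ιK ⟨L, hLn, h1, h2, h3⟩)) hQ (nt_K hH hp K ιK h1 h3)

/-- The theorem over ℚ for isogenous curves. -/
theorem isoA {kap : ℤ} {e t u lam : ℚ} (h : TW F W W' Om m ψ kap e t u lam) (hp' : PrimeH F (W'⁄(𝓞 F)) p) (K : Type) [Field K]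
    [NumberField K] (ιK : K →ₐ[ℚ] AlgebraicClosure F) (hT : TowerA F p K ιK)
    (hM : ∀ ι₀ : ℚ →ₐ[ℚ] AlgebraicClosure F, TowerO F p W ℚ K ι₀ ιK → OverB F p W ℚ K ι₀ ιK) : OverA F p W' K ιK := by
  classical
  have hp := (tw_prime h).1 hp'
  obtain ⟨L, hLn, h1, h2, h3⟩ := hT
  obtain ⟨ι₀, hι₀⟩ : ∃ ι₀ : ℚ →ₐ[ℚ] AlgebraicClosure F, ι₀ = Algebra.ofId ℚ (AlgebraicClosure F) := ⟨_, rfl⟩
  have hSQ := i1_same h hp ℚ (lfun_tw h ℚ)
  have hSK := i1_same h hp K (lfun_tw h K)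
  have hQ : NT p W ℚ := by
    refine nt_K h.base hp ℚ ι₀ h1 ?_
    rw [kgq]
    exact bot_le
  have hO := over_tw h hp' ℚ K ι₀ ιK (hM ι₀ (towerO_Q h.base K ι₀ ιK ⟨L, hLn, h1, h2, h3⟩))
  refine abs_of hp.prime (H28I.main_iso h hp' ℚ (H28I.subUF_Q (F := F) hp)).2.2.1 (fun hl => ?_) hO
    ((nt_same hp.prime hp.five hSQ).2 hQ) ((nt_same hp.prime hp.five hSK).2 (nt_K h.base hp K ιK h1 h3))
  have ha := lq_aq h.base hp ((i1_lunit hSQ).1 hl)
  exact ((bsd_tw h hp' ℚ ι₀).2 ((main_Q h.base hp ℚ (H28I.subUF_Q (F := F) hp)).2.1 ha)).2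

end H35V
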