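import Mathlib
import Pool.Agent.Lib.H55G.J5
import Pool.Agent.Lib.H13R.K1

/-! # H35V: the condition OkM -/

open NumberField IsDedekindDomain WeierstrassCurve

namespace H35V

open H55P (IQ embF eF LF Per IsHecke Pt ac Inert Dec Nm UnitP UnrP PExt RamF)
open H55K H55K.TQ
open H28I (TW tw_prime tw_supp)
open H55G (OkM NW TE ok_almost okm_tw)

variable {F : Type} [Field F] [NumberField F] [IQ F] {W W' : WeierstrassCurve ℤ} {Om : ℂ}
    {m : Ideal (𝓞 F)} {ψ : Ideal (𝓞 F) →*₀ 𝓞 F} {p : ℕ}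

/-- The condition holds for almost all p. -/
theorem okm_almost (hH : BaseH F (W⁄(𝓞 F)) Om m ψ) (M : IntermediateField F (AlgebraicClosure F)) [NumberField M] :
    {p : ℕ | p.Prime ∧ ¬ OkM p (W⁄(𝓞 F)) M}.Finite := by
  refine (ok_almost hH M).subset fun p hp => ⟨hp.1, fun h => hp.2 fun w hw hg => ?_⟩
  have hc : ((W⁄(𝓞 F))⁄F)⁄M = W⁄M := cur_eq M
  rw [hc] at hg ⊢
  refine h w ⟨?_, hg⟩
  have h2 : (W⁄(𝓞 F)).Δ = ((W.Δ : ℤ) : 𝓞 F) := by
    show (W.map (algebraMap ℤ (𝓞 F))).Δ = _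
    rw [WeierstrassCurve.map_Δ]
    rfl
  rw [h2, map_intCast] at hw
  exact hw

theorem okm_unr (hH : BaseH F (W⁄(𝓞 F)) Om m ψ) (M : IntermediateField F (AlgebraicClosure F)) [NumberField M]
    (hU : ∀ v : HeightOneSpectrum (𝓞 F), (W⁄(𝓞 F)).Δ ∈ v.asIdeal → ¬ RamF M v.asIdeal) : OkM p (W⁄(𝓞 F)) M := by
  have hb := H13R.bad_unr hH M hU
  exact fun w hw hg => absurd hg (hb w hw)

variable {kap : ℤ} {e t u lam : ℚ}

theorem okm_almost_iso (h : TW F W W' Om m ψ kap e t u lam) (M : IntermediateField F (AlgebraicClosure F)) [NumberField M] :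
    {p : ℕ | p.Prime ∧ ¬ OkM p (W'⁄(𝓞 F)) M}.Finite := by
  refine (okm_almost h.base M).subset fun p hp => ⟨hp.1, fun h1 => hp.2 ((okm_tw h M).2 h1)⟩

theorem okm_unr_iso (h : TW F W W' Om m ψ kap e t u lam) (M : IntermediateField F (AlgebraicClosure F)) [NumberField M]
    (hU : ∀ v : HeightOneSpectrum (𝓞 F), (W'⁄(𝓞 F)).Δ ∈ v.asIdeal → ¬ RamF M v.asIdeal) : OkM p (W'⁄(𝓞 F)) M :=
  (okm_tw h M).2 (okm_unr h.base M fun v hv => hU v ((tw_supp h v).2 hv))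

end H35V
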