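import Mathlib
import Pool.Agent.Lib.H35V.Abs

/-! # H35V: the fields of the richness statements -/

open NumberField IsDedekindDomain WeierstrassCurve

namespace H35V

open H55P (IQ embF eF LF Per IsHecke Pt ac Inert Dec Nm UnitP UnrP PExt RamF Ram)
open H55K H55K.TQ

variable {F : Type} [Field F] [NumberField F] [IQ F]

/-- If K satisfies InPF then it can be embedded such that TowerA and NoAn hold. -/
theorem link (W₀ : WeierstrassCurve (𝓞 F)) {p : ℕ} (hp : p.Prime) (K : Type) [Field K] [NumberField K] (h : InPF W₀ p K) :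
    ∃ ιK : K →ₐ[ℚ] AlgebraicClosure F, TowerA F p K ιK ∧ NoAn p W₀ (KG F K ιK) := by
  obtain ⟨Lt, _, _, _, _, hG, ⟨k, hk⟩, hU, hr⟩ := h
  obtain ⟨L, hLn, ι, hL, hU', hKL, hram⟩ := sub_setup (F := F) p hp K Lt hG k hk hU
  have hLf : FiniteDimensional F L := hL.fin
  have hKf : FiniteDimensional F (KG F K ι) := H55P.finDim_of_le hKL
  have hKn : NumberField (KG F K ι) := H16C.FR_numberField _
  have hbn : NumberField (⊥ : IntermediateField F (AlgebraicClosure F)) := H16C.FR_numberField _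
  refine ⟨ι, ⟨L, hLn, hL, fun _ => SSU.g2f_unr hp ⊥ L bot_le hL.norm hU', hKL⟩, fun v hv hΔ hd => ?_⟩
  obtain ⟨w, hw, he⟩ := hram v (ramF_up hKL v hv)
  exact he (hr w v hw hΔ hd)

end H35V
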