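import Mathlib
import Pool.Agent.Lib.H35U.U2
import Pool.Agent.Lib.H55G.F8

/-! # H35V: the real normalisation of the L-value over K without the hypothesis on the bad primes -/

open NumberField IsDedekindDomain WeierstrassCurve

namespace H35V

open H55P (IQ embF eF LF Per IsHecke Pt ac Inert Dec Nm UnitP UnrP PsiP)
open H55K (cj)
open H55K.TQ H41D H35M H55Z H13R
open H55N (tm)
open H55G (RelV2 lrelE ek_an EK NW TE OkM)
open H35U (sD_KG conj_one lvo_of above_conj mul_one_iff)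

variable {F : Type} [Field F] [NumberField F] [IQ F] {W : WeierstrassCurve ℤ} {Om : ℂ}
    {m : Ideal (𝓞 F)} {ψ : Ideal (𝓞 F) →*₀ 𝓞 F} {p : ℕ}

/-- The relation between the L-value over K and the Hecke L-value over FK, with the fact that the Hecke L-value is real if K does not
contain F. -/
structure RelO (p : ℕ) (W : WeierstrassCurve ℤ) (Om : ℂ) (ψ : Ideal (𝓞 F) →*₀ 𝓞 F) (K : Type) [Field K] [NumberField K]
    (ι : K →ₐ[ℚ] AlgebraicClosure F) [NumberField (KG F K ι)] : Prop where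
  rel : RelV2 p W Om ψ K (KG F K ι)
  real : Module.finrank ℚ K = Module.finrank F (KG F K ι) → ∀ Φ : ℂ → ℂ, AnalyticOnNhd ℂ Φ {s | 1 / 2 < s.re} →
    (∀ s : ℂ, 3 / 2 < s.re → HasSum (tm (PsiP (KG F K ι) ψ) s) (Φ s)) → (starRingEnd ℂ) (Φ 1) = Φ 1

theorem real_of (hH : BaseH F (W⁄(𝓞 F)) Om m ψ) (K : Type) [Field K] [NumberField K] (ι : K →ₐ[ℚ] AlgebraicClosure F)
    [NumberField (KG F K ι)] (hd : Module.finrank ℚ K = Module.finrank F (KG F K ι)) {Φ : ℂ → ℂ}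
    (hΦa : AnalyticOnNhd ℂ Φ {s | 1 / 2 < s.re})
    (hΦ : ∀ s : ℂ, 3 / 2 < s.re → HasSum (tm (PsiP (KG F K ι) ψ) s) (Φ s)) : (starRingEnd ℂ) (Φ 1) = Φ 1 := by
  have hfd : FiniteDimensional F (KG F K ι) := Module.Finite.of_restrictScalars_finite ℚ F (KG F K ι)
  have hpos : 0 < Module.finrank F (KG F K ι) := Module.finrank_pos
  obtain ⟨h1, h2, h3⟩ := ek_an (W := W) hH K
  rcases lrelE hH K ι with ⟨hd', -⟩ | ⟨-, hR⟩
  · omega
  · have h4 := fb6b_real K (h1 Φ hΦa) (hR Φ hΦ)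
    have h5 : (starRingEnd ℂ) (Φ 1 / EK W K 1) = Φ 1 / EK W K 1 := h4
    rw [map_div₀, h3] at h5
    exact (div_left_inj' h2).1 h5

theorem relO_of (hH : BaseH F (W⁄(𝓞 F)) Om m ψ) (hp : PrimeH F (W⁄(𝓞 F)) p) (K : Type) [Field K] [NumberField K]
    (ι : K →ₐ[ℚ] AlgebraicClosure F) [NumberField (KG F K ι)] (hOk : OkM p (W⁄(𝓞 F)) (KG F K ι)) : RelO p W Om ψ K ι :=
  ⟨H55G.relV2_of hH hp K ι (H55G.ok_of hH K ι hOk), fun hd _ h1 h2 => real_of hH K ι hd h1 h2⟩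

/-- The two local factors. -/
theorem lG_sq (hH : BaseH F (W⁄(𝓞 F)) Om m ψ) (hp : PrimeH F (W⁄(𝓞 F)) p) (K : Type) [Field K] [NumberField K] (ι : K →ₐ[ℚ] AlgebraicClosure F)
    [NumberField (KG F K ι)] (hR : RelO p W Om ψ K ι) {Φ : ℂ → ℂ} (hΦa : AnalyticOnNhd ℂ Φ {s | 1 / 2 < s.re})
    (hΦ : ∀ s : ℂ, 3 / 2 < s.re → HasSum (tm (PsiP (KG F K ι) ψ) s) (Φ s)) :
    ∃ Λ : ℂ → ℂ, AnalyticOnNhd ℂ Λ {s | 1 / 2 < s.re} ∧
      (∀ s : ℂ, 3 / 2 < s.re → LSeriesSummable (fun n => (((W⁄K).LFunction n : ℤ) : ℂ)) s ∧ Λ s = (W⁄K).LSeries s) ∧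
      (Φ 1 ≠ 0 → Λ 1 ≠ 0) ∧
      ∀ V : ValuationSubring ℂ, V.valuation (p : ℂ) < 1 → ∀ L : PeriodPair, PerZ W L → ∃ k : ℕ, k ≠ 0 ∧
        V.valuation (lG K W L (Λ 1)) ^ k =
          (V.valuation (Φ 1 / Om ^ Module.finrank F (KG F K ι)) ^ 2 * vN F V (differentIdeal (𝓞 F) (𝓞 (KG F K ι)))) *
          (V.valuation ((starRingEnd ℂ) (Φ 1 / Om ^ Module.finrank F (KG F K ι))) ^ 2 * vNc F V (differentIdeal (𝓞 F) (𝓞 (KG F K ι)))) := by
  have hper := perW_of hH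
  have hp2 : p ≠ 2 := by
    have := hp.five
    omega
  obtain ⟨Λ, h1, h2, h3, h4⟩ := hR.rel Φ hΦa hΦ
  refine ⟨Λ, h1, h2, h3, fun V hV L hL => ?_⟩
  have hfd : FiniteDimensional F (KG F K ι) := Module.Finite.of_restrictScalars_finite ℚ F (KG F K ι)
  have hpos : 0 < Module.finrank F (KG F K ι) := Module.finrank_pos
  obtain ⟨d1, d2⟩ := sD_KG hp.prime hp2 hp.unr K ι V hV
  rcases h4 V hV L hL with ⟨hd, h⟩ | ⟨hd, h⟩
  · refine ⟨2, two_ne_zero, ?_⟩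
    rw [h, mul_pow, mul_pow, d1 hd]
    exact mul_mul_mul_comm _ _ _ _
  · refine ⟨4, by norm_num, ?_⟩
    have hc : V.valuation ((starRingEnd ℂ) (Φ 1 / Om ^ Module.finrank F (KG F K ι))) =
        V.valuation (Φ 1 / Om ^ Module.finrank F (KG F K ι)) := by
      rw [fb6b_conj hper V, hR.real hd Φ hΦa hΦ]
    rw [h, hc, mul_pow, d2 hd]
    have e : V.valuation (Φ 1 / Om ^ Module.finrank F (KG F K ι)) ^ 4 =
        V.valuation (Φ 1 / Om ^ Module.finrank F (KG F K ι)) ^ 2 * V.valuation (Φ 1 / Om ^ Module.finrank F (KG F K ι)) ^ 2 := by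
      rw [← pow_add]
    rw [e]
    exact mul_mul_mul_comm _ _ _ _

section main

variable (hH : BaseH F (W⁄(𝓞 F)) Om m ψ) (hp : PrimeH F (W⁄(𝓞 F)) p) (K : Type) [Field K] [NumberField K] (ι : K →ₐ[ℚ] AlgebraicClosure F)
    [NumberField (KG F K ι)] (hR : RelO p W Om ψ K ι)
    (hI : ∀ V : ValuationSubring ℂ, V.valuation (p : ℂ) < 1 → LVOi F V Om (PsiP (KG F K ι) ψ))

include hH hp hR hI

/-- All the facts for one continuation. -/
theorem lG_all : ∃ Λ : ℂ → ℂ, AnalyticOnNhd ℂ Λ {s | 1 / 2 < s.re} ∧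
      (∀ s : ℂ, 3 / 2 < s.re → LSeriesSummable (fun n => (((W⁄K).LFunction n : ℤ) : ℂ)) s ∧ Λ s = (W⁄K).LSeries s) ∧
      ((∃ V : ValuationSubring ℂ, LVO F V Om (PsiP (KG F K ι) ψ)) → Λ 1 ≠ 0) ∧
      ∀ V : ValuationSubring ℂ, V.valuation (p : ℂ) < 1 → ∀ L : PeriodPair, PerZ W L →
        V.valuation (lG K W L (Λ 1)) ≤ 1 ∧ (V.valuation (lG K W L (Λ 1)) = 1 ↔
          LVO F V Om (PsiP (KG F K ι) ψ) ∧ LVO F (V.comap (starRingEnd ℂ)) Om (PsiP (KG F K ι) ψ)) := by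
  obtain ⟨V₀, hV₀⟩ := H55P.exists_above_p p hp.prime
  obtain ⟨Φ, hΦa, hΦ, -⟩ := hI V₀ hV₀
  obtain ⟨Λ, h1, h2, h3, h4⟩ := lG_sq hH hp K ι hR hΦa hΦ
  refine ⟨Λ, h1, h2, ?_, fun V hV L hL => ?_⟩
  · rintro ⟨V, hV⟩
    apply h3
    intro h0
    have h5 := (lvo_of (F := F) (Om := Om) hΦa hΦ).1.1 hV
    rw [h0, zero_div, map_zero, zero_pow two_ne_zero, zero_mul] at h5
    exact zero_ne_one h5
  · obtain ⟨k, hk, h5⟩ := h4 V hV L hL
    have ha := (lvo_of (F := F) (Om := Om) hΦa hΦ).2.1 (hI V hV)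
    have hb := (conj_one V _ _).2.1 ((lvo_of (F := F) (Om := Om) hΦa hΦ).2.1 (hI _ (above_conj hp.prime V hV)))
    have hle : V.valuation (lG K W L (Λ 1)) ≤ 1 := by
      rw [← pow_le_one_iff hk, h5]
      exact mul_le_one' ha hb
    refine ⟨hle, ?_⟩
    have hk1 : V.valuation (lG K W L (Λ 1)) = 1 ↔ V.valuation (lG K W L (Λ 1)) ^ k = 1 := by
      refine ⟨fun h => by rw [h, one_pow], fun h => le_antisymm hle (not_lt.1 fun hlt => ?_)⟩
      have h6 := pow_lt_one₀ zero_le hlt hk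
      rw [h] at h6
      exact lt_irrefl _ h6
    rw [hk1, h5, mul_one_iff ha hb, (lvo_of (F := F) (Om := Om) hΦa hΦ).1,
      (lvo_of (F := F) (Om := Om) hΦa hΦ).1, (conj_one V _ _).1]

/-- The L-value is a unit above p if and only if the canonical values are units at all places above p. -/
theorem lunit_iffO : LUnitG p W K ↔ ∀ V : ValuationSubring ℂ, V.valuation (p : ℂ) < 1 → LVO F V Om (PsiP (KG F K ι) ψ) := by
  obtain ⟨Λ, h1, h2, h3, h4⟩ := lG_all hH hp K ι hR hI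
  constructor
  · rintro ⟨⟨L, hL⟩, Λ', hΛa', hΛs', -, hΛu'⟩ V hV
    have e1 : Λ 1 = Λ' 1 := H55N.ident Λ Λ' h1 hΛa' (fun s hs => by
      rw [(h2 s hs).2, (hΛs' s hs).2]) 1 (by norm_num)
    have h5 : V.valuation (lG K W L (Λ 1)) = 1 := by
      rw [e1]
      exact hΛu' L hL V hV
    exact ((h4 V hV L hL).2.1 h5).1
  · intro h
    obtain ⟨V₀, hV₀⟩ := H55P.exists_above_p p hp.prime
    refine ⟨exists_perZ (perW_of hH), Λ, h1, h2, h3 ⟨V₀, h V₀ hV₀⟩, fun L hL V hV => ?_⟩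
    exact (h4 V hV L hL).2.2 ⟨h V hV, h _ (above_conj hp.prime V hV)⟩

/-- Integrality. -/
theorem int_ofO : AnIntG p W K := by
  obtain ⟨Λ, h1, h2, h3, h4⟩ := lG_all hH hp K ι hR hI
  refine ⟨exists_perZ (perW_of hH), Λ, h1, h2, fun L hL V hV => ?_⟩
  rw [← ValuationSubring.valuation_le_one_iff]
  exact (h4 V hV L hL).1

/-- Divisibility. -/
theorem non_ofO (hN : ∀ V : ValuationSubring ℂ, V.valuation (p : ℂ) < 1 →
    ¬ (LVO F V Om (PsiP (KG F K ι) ψ) ∧ LVO F (V.comap (starRingEnd ℂ)) Om (PsiP (KG F K ι) ψ))) : AnNonG p W K := by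
  obtain ⟨Λ, h1, h2, h3, h4⟩ := lG_all hH hp K ι hR hI
  refine ⟨exists_perZ (perW_of hH), Λ, h1, h2, fun L hL V hV => ?_⟩
  obtain ⟨h5, h6⟩ := h4 V hV L hL
  exact lt_of_le_of_ne h5 fun h => hN V hV (h6.1 h)

end main

end H35V
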