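import Mathlib
import Pool.Agent.Lib.H35V.D
import Pool.Agent.Lib.H35V.U2
import Pool.Agent.Lib.H19C.Main
import Pool.Agent.Lib.H55G.I4c
import Pool.Agent.Lib.H55G.I5b

/-! # H35V: the relative theorem for p split in F, without the hypothesis on the bad primes -/

open NumberField IsDedekindDomain WeierstrassCurve

namespace H35V

open H55P (IQ embF eF LF Per IsHecke Pt ac Inert Dec Nm UnitP UnrP PExt PsiP)
open H35P (WAB Ker tt GoodW IntW)
open H55K H55K.TQ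
open H35M (LVO LVOi NoTor intB critB)
open H13R (NoRel LUnitG)
open H35U (OverB NT NonSel nt_up nt_of selB_iff selB_rest bsdB_iff spl_of above_conj)
open H55G (OkM ok_up selBO)

variable {F : Type} [Field F] [NumberField F] [IQ F] {W : WeierstrassCurve ℤ} {Om : ℂ}
    {m : Ideal (𝓞 F)} {ψ : Ideal (𝓞 F) →*₀ 𝓞 F} {p : ℕ}

/-- The converse for Selmer groups, p split. -/
theorem ns_all (hH : BaseH F (W⁄(𝓞 F)) Om m ψ) (hp : PrimeH F (W⁄(𝓞 F)) p) (hs : H19B.Spl F p) : NonSel F W p := by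
  intro M K L _ _ hL hMK hKL hN
  exact H19C.nonselB hH hp hs hL hMK hKL hN

section split

variable (hH : BaseH F (W⁄(𝓞 F)) Om m ψ) (hp : PrimeH F (W⁄(𝓞 F)) p)

include hH hp

variable (hsp : H19B.Spl F p) (M K : Type) [Field M] [NumberField M]
    [Field K] [NumberField K] (ιM : M →ₐ[ℚ] AlgebraicClosure F) (ιK : K →ₐ[ℚ] AlgebraicClosure F)
    {L : IntermediateField F (AlgebraicClosure F)} (hL : PExt p (KG F M ιM) L)
    (hMK : KG F M ιM ≤ KG F K ιK) (hKL : KG F K ιK ≤ L) (hB : OkM p (W⁄(𝓞 F)) (KG F M ιM))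

include hsp hL hMK hKL hB

theorem intKB (hN : NT p W M) (V : ValuationSubring ℂ) (hV : V.valuation (p : ℂ) < 1) : LVOi F V Om (PsiP (KG F K ιK) ψ) :=
  intB hH hp hsp hL hMK hKL (nt_up hH hp.prime (by have := hp.five; omega) hp.unr M ιM hN) hV

theorem lvalB (hN : NT p W M) : LUnitG p W K ↔ LUnitG p W M ∧ NoRel p (W⁄(𝓞 F)) (KG F M ιM) (KG F K ιK) := by
  have hT := nt_up hH hp.prime (by have := hp.five; omega) hp.unr M ιM hN
  have hRM := relO_of hH hp M ιM hB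
  have hRK := relO_of hH hp K ιK (ok_up hH hp hL hMK hKL hB)
  have hIM : ∀ V : ValuationSubring ℂ, V.valuation (p : ℂ) < 1 → LVOi F V Om (PsiP (KG F M ιM) ψ) :=
    fun V hV => intB hH hp hsp hL le_rfl hL.le hT hV
  rw [lunit_iffO hH hp K ιK hRK (fun V hV => intB hH hp hsp hL hMK hKL hT hV), lunit_iffO hH hp M ιM hRM hIM]
  constructor
  · intro h
    have key : ∀ V : ValuationSubring ℂ, V.valuation (p : ℂ) < 1 →
        (LVO F V Om (PsiP (KG F M ιM) ψ) ∧ LVO F (V.comap (starRingEnd ℂ)) Om (PsiP (KG F M ιM) ψ)) ∧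
          NoRel p (W⁄(𝓞 F)) (KG F M ιM) (KG F K ιK) := fun V hV =>
      (critB hH hp hsp hL hMK hKL hT hV).1 ⟨h V hV, h _ (above_conj hp.prime V hV)⟩
    obtain ⟨V₀, hV₀⟩ := H55P.exists_above_p p hp.prime
    exact ⟨fun V hV => (key V hV).1.1, (key V₀ hV₀).2⟩
  · rintro ⟨h1, h2⟩ V hV
    exact ((critB hH hp hsp hL hMK hKL hT hV).2 ⟨⟨h1 V hV, h1 _ (above_conj hp.prime V hV)⟩, h2⟩).1

theorem annonB (hN : NT p W M) (hR : ¬ NoRel p (W⁄(𝓞 F)) (KG F M ιM) (KG F K ιK)) : AnNonG p W K := by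
  have hT := nt_up hH hp.prime (by have := hp.five; omega) hp.unr M ιM hN
  have hRK := relO_of hH hp K ιK (ok_up hH hp hL hMK hKL hB)
  exact non_ofO hH hp K ιK hRK (fun V hV => intB hH hp hsp hL hMK hKL hT hV)
    fun V hV h => hR ((critB hH hp hsp hL hMK hKL hT hV).1 h).2

theorem anintB (hN : NT p W M) : AnIntG p W K := by
  have hT := nt_up hH hp.prime (by have := hp.five; omega) hp.unr M ιM hN
  have hRK := relO_of hH hp K ιK (ok_up hH hp hL hMK hKL hB)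
  exact int_ofO hH hp K ιK hRK (fun V hV => intB hH hp hsp hL hMK hKL hT hV)

theorem selB_iffK : H55P.SelTriv (W⁄K) p ↔ H55P.SelTriv (W⁄M) p ∧ NoRel p (W⁄(𝓞 F)) (KG F M ιM) (KG F K ιK) := by
  constructor
  · intro h
    have hN : NoRel p (W⁄(𝓞 F)) (KG F M ιM) (KG F K ιK) := by
      by_contra hN
      exact H13Z.not_selTriv _ p (non_abs hH hp K ιK (ns_all hH hp hsp _ _ _ hL hMK hKL hN)) h
    exact ⟨(selB_iff hH hp M ιM).2 (H19B.sel_downB hH hp hL hMK hKL ((selB_iff hH hp K ιK).1 h)), hN⟩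
  · rintro ⟨h, hN⟩
    exact (selB_iff hH hp K ιK).2 (selBO hH hp hsp hB hL hMK hKL hN ((selB_iff hH hp M ιM).1 h)).1

/-- The theorem for p split in F. -/
theorem over_splitO : OverB F p W M K ιM ιK := by
  have hsel := selB_iffK hH hp hsp M K ιM ιK hL hMK hKL hB
  refine ⟨hsel, ?_, fun hN => non_abs hH hp K ιK (ns_all hH hp hsp _ _ _ hL hMK hKL hN),
    anintB hH hp hsp M K ιM ιK hL hMK hKL hB, lvalB hH hp hsp M K ιM ιK hL hMK hKL hB, annonB hH hp hsp M K ιM ιK hL hMK hKL hB,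
    nt_of hH hp M ιM⟩
  rw [bsdB_iff hH hp K ιK, bsdB_iff hH hp M ιM]
  constructor
  · rintro ⟨h1, h2⟩
    obtain ⟨h3, h4⟩ := hsel.1 h1
    exact ⟨⟨h3, ((lvalB hH hp hsp M K ιM ιK hL hMK hKL hB (nt_of hH hp M ιM (Or.inr h3))).1 h2).1⟩, h4⟩
  · rintro ⟨⟨h1, h2⟩, h3⟩
    exact ⟨hsel.2 ⟨h1, h3⟩, (lvalB hH hp hsp M K ιM ιK hL hMK hKL hB (nt_of hH hp M ιM (Or.inr h1))).2 ⟨h2, h3⟩⟩

end split


end H35V
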