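import Mathlib
import Pool.Agent.Lib.H35V.MainB
import Pool.Agent.Lib.SSU.A5

/-! # H35V: the theorem for arbitrary ramification -/

open NumberField IsDedekindDomain WeierstrassCurve

namespace H35V

open H55P (IQ embF eF LF Per IsHecke Pt ac Inert Dec Nm UnitP UnrP PExt PsiP)
open H55K H55K.TQ
open H13R (NoRel LUnitG)
open H35U (NT NonSel nt_up nt_of selB_iff spl_of)
open H55G (OkM ok_up)

variable {F : Type} [Field F] [NumberField F] [IQ F] {W : WeierstrassCurve ℤ} {Om : ℂ}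
    {m : Ideal (𝓞 F)} {ψ : Ideal (𝓞 F) →*₀ 𝓞 F} {p : ℕ}

theorem main_P (hH : BaseH F (W⁄(𝓞 F)) Om m ψ) (hp : PrimeH F (W⁄(𝓞 F)) p) (hns : (Ideal.span {(p : 𝓞 F)}).IsPrime → NonSel F W p)
    (M K : Type) [Field M] [NumberField M] [Field K] [NumberField K] (ιM : M →ₐ[ℚ] AlgebraicClosure F) (ιK : K →ₐ[ℚ] AlgebraicClosure F)
    (hT : TowerP F p W M K ιM ιK) : OverP F p W M K ιM ιK := by
  classical
  obtain ⟨hMK, ⟨L, hLn, hL, hKL⟩, hB⟩ := hT
  refine ⟨fun h => (selB_iff hH hp M ιM).2 (H19B.sel_downB hH hp hL hMK hKL ((selB_iff hH hp K ιK).1 h)), fun hN => ?_,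
    fun hN => ?_, nt_of hH hp M ιM⟩
  · by_cases hI : (Ideal.span {(p : 𝓞 F)}).IsPrime
    · exact non_abs hH hp K ιK (hns hI _ _ _ hL hMK hKL hN)
    · exact non_abs hH hp K ιK (ns_all hH hp (spl_of hp hI) _ _ _ hL hMK hKL hN)
  · by_cases hI : (Ideal.span {(p : 𝓞 F)}).IsPrime
    · have hp2 : p ≠ 2 := by
        have := hp.five
        omega
      have hRK := relO_of hH hp K ιK (ok_up hH hp hL hMK hKL hB)
      exact int_ofO hH hp K ιK hRK fun V hV =>
        SSU.intC hH hp hI hL hMK hKL (nt_up hH hp.prime hp2 hp.unr M ιM hN) hV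
    · exact anintB hH hp (spl_of hp hI) M K ιM ιK hL hMK hKL hB hN

end H35V
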