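import Mathlib
import Pool.Agent.Lib.H35V.MainP
import Pool.Agent.Lib.H35V.Link
import Pool.Agent.Lib.SSU.MainD
import Pool.Agent.Lib.SSN.C6

/-! # H35V: THE RELATIVE THEOREM -/

open NumberField IsDedekindDomain WeierstrassCurve

namespace H35V

open H55P (IQ embF eF LF Per IsHecke Pt ac Inert Dec Nm UnitP UnrP PExt)
open H55K H55K.TQ
open H28I (TW tw_prime)
open H35U (OverB NonSel spl_of)

variable {F : Type} [Field F] [NumberField F] [IQ F] {W W' : WeierstrassCurve ℤ} {Om : ℂ}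
    {m : Ideal (𝓞 F)} {ψ : Ideal (𝓞 F) →*₀ 𝓞 F} {p : ℕ}

/-- The converse for Selmer groups, p inert. -/
theorem ns_in (hH : BaseH F (W⁄(𝓞 F)) Om m ψ) (hp : PrimeH F (W⁄(𝓞 F)) p) (hin : (Ideal.span {(p : 𝓞 F)}).IsPrime) : NonSel F W p := by
  intro M K L _ _ hL hMK hKL hN
  exact SSN.nonsel_in hH hp hin hL hMK hKL hN

/-- THE RELATIVE THEOREM. -/
theorem main_O (hH : BaseH F (W⁄(𝓞 F)) Om m ψ) (hp : PrimeH F (W⁄(𝓞 F)) p) (M K : Type) [Field M]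
    [NumberField M] [Field K] [NumberField K] (ιM : M →ₐ[ℚ] AlgebraicClosure F) (ιK : K →ₐ[ℚ] AlgebraicClosure F)
    (hT : TowerO F p W M K ιM ιK) : OverB F p W M K ιM ιK := by
  classical
  by_cases hI : (Ideal.span {(p : 𝓞 F)}).IsPrime
  · exact SSU.over_inert hH hp hI (ns_in hH hp hI) M K ιM ιK hT
  · obtain ⟨hMK, ⟨L, hLn, hL, -, hKL⟩, hB⟩ := hT
    exact over_splitO hH hp (spl_of hp hI) M K ιM ιK hL hMK hKL hB

theorem main_PP (hH : BaseH F (W⁄(𝓞 F)) Om m ψ) (hp : PrimeH F (W⁄(𝓞 F)) p) (M K : Type) [Field M]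
    [NumberField M] [Field K] [NumberField K] (ιM : M →ₐ[ℚ] AlgebraicClosure F) (ιK : K →ₐ[ℚ] AlgebraicClosure F)
    (hT : TowerP F p W M K ιM ιK) : OverP F p W M K ιM ιK :=
  main_P hH hp (ns_in hH hp) M K ιM ιK hT

theorem main_AA (hH : BaseH F (W⁄(𝓞 F)) Om m ψ) (hp : PrimeH F (W⁄(𝓞 F)) p) (K : Type) [Field K] [NumberField K]
    (ιK : K →ₐ[ℚ] AlgebraicClosure F) (hT : TowerA F p K ιK) : OverA F p W K ιK :=
  main_A hH hp K ιK hT fun ι₀ hO => main_O hH hp ℚ K ι₀ ιK hO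

variable {kap : ℤ} {e t u lam : ℚ}

theorem iso_O (h : TW F W W' Om m ψ kap e t u lam) (hp' : PrimeH F (W'⁄(𝓞 F)) p) (M K : Type) [Field M]
    [NumberField M] [Field K] [NumberField K] (ιM : M →ₐ[ℚ] AlgebraicClosure F) (ιK : K →ₐ[ℚ] AlgebraicClosure F)
    (hT : TowerO F p W' M K ιM ιK) : OverB F p W' M K ιM ιK :=
  over_tw h hp' M K ιM ιK (main_O h.base ((tw_prime h).1 hp') M K ιM ιK (towerO_tw h M K ιM ιK hT))

theorem iso_PP (h : TW F W W' Om m ψ kap e t u lam) (hp' : PrimeH F (W'⁄(𝓞 F)) p) (M K : Type) [Field M]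
    [NumberField M] [Field K] [NumberField K] (ιM : M →ₐ[ℚ] AlgebraicClosure F) (ιK : K →ₐ[ℚ] AlgebraicClosure F)
    (hT : TowerP F p W' M K ιM ιK) : OverP F p W' M K ιM ιK :=
  overP_tw h hp' M K ιM ιK (main_PP h.base ((tw_prime h).1 hp') M K ιM ιK (towerP_tw h M K ιM ιK hT))

theorem iso_AA (h : TW F W W' Om m ψ kap e t u lam) (hp' : PrimeH F (W'⁄(𝓞 F)) p) (K : Type) [Field K] [NumberField K]
    (ιK : K →ₐ[ℚ] AlgebraicClosure F) (hT : TowerA F p K ιK) : OverA F p W' K ιK :=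
  isoA h hp' K ιK hT fun ι₀ hO => main_O h.base ((tw_prime h).1 hp') ℚ K ι₀ ιK hO

end H35V
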