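import Mathlib
import Pool.Agent.Lib.H35V.U2
import Pool.Agent.Lib.H35U.MainB
import Pool.Agent.Lib.H55G.H1
import Pool.Agent.Lib.H55G.I4c
import Pool.Agent.Lib.H55G.I5b

/-! # H35V: the relative theorem, p unramified, without the hypothesis on the bad primes -/

open NumberField IsDedekindDomain WeierstrassCurve

namespace H35V

open H55P (IQ embF eF LF Per IsHecke Pt ac Inert Dec Nm UnitP UnrP PExt)
open H35P (WAB Ker tt GoodW IntW)
open H55K H55K.TQ
open H13R (NoRel LUnitG Over gen_intR gen_valR non_KR nonselR sel_downR unr_KG unr_le sel_iff bsd_iff)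
open H55G (OkM lunit_iffV int_ofV non_ofV relV1_of ok_of ok_up selRO)

/-- FM and FK are the fields generated by F and M, F and K in the algebraic closure of F. FM is contained in FK, FK is contained in a Galois
extension L of FM of degree a power of p in which p is unramified, and at the primes of FM which divide the discriminant of W and at which W
has good reduction over FM, p does not divide the number of points of the reduction. -/
structure TowerRO (F : Type) [Field F] [NumberField F] (p : ℕ) (W : WeierstrassCurve ℤ) (M K : Type) [Field M] [NumberField M] [Field K]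
    [NumberField K] (ιM : M →ₐ[ℚ] AlgebraicClosure F) (ιK : K →ₐ[ℚ] AlgebraicClosure F) : Prop where
  sub : KG F M ιM ≤ KG F K ιK
  ext : ∃ (L : IntermediateField F (AlgebraicClosure F)) (_ : NumberField L), PExt p (KG F M ιM) L ∧ UnrP p L ∧ KG F K ιK ≤ L
  ok : OkM p (W⁄(𝓞 F)) (KG F M ιM)

variable {F : Type} [Field F] [NumberField F] [IQ F] {W : WeierstrassCurve ℤ} {Om : ℂ}
    {m : Ideal (𝓞 F)} {ψ : Ideal (𝓞 F) →*₀ 𝓞 F} {p : ℕ}

/-- THE RELATIVE THEOREM. -/
theorem main_RO (hH : BaseH F (W⁄(𝓞 F)) Om m ψ) (hp : PrimeH F (W⁄(𝓞 F)) p) (M K : Type) [Field M] [NumberField M]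
    [Field K] [NumberField K] (ιM : M →ₐ[ℚ] AlgebraicClosure F) (ιK : K →ₐ[ℚ] AlgebraicClosure F)
    (hT : TowerRO F p W M K ιM ιK) : Over F p W M K ιM ιK := by
  classical
  obtain ⟨hMK, ⟨L, hLn, hL, hU, hKL⟩, hB⟩ := hT
  have hUM : UnrP p (KG F M ιM) := unr_le hp.prime hL.le hU
  have hUK : UnrP p (KG F K ιK) := unr_le hp.prime hKL hU
  have hUM' := unr_KG hp.prime M ιM hUM
  have hUK' := unr_KG hp.prime K ιK hUK
  have hRM := relV1_of hH hp M ιM hUM' (ok_of hH M ιM hB)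
  have hRK := relV1_of hH hp K ιK hUK' (ok_of hH K ιK (ok_up hH hp hL hMK hKL hB))
  have hIM := gen_intR hH hp hUM hL le_rfl hL.le hUM
  have hIK := gen_intR hH hp hUM hL hMK hKL hUK
  have hlval : LUnitG p W K ↔ LUnitG p W M ∧ NoRel p (W⁄(𝓞 F)) (KG F M ιM) (KG F K ιK) := by
    rw [lunit_iffV hH hp K (KG F K ιK) hRK hIK,
      lunit_iffV hH hp M (KG F M ιM) hRM hIM]
    exact gen_valR hH hp hUM hL hMK hKL hUK
  have hnon : ¬ NoRel p (W⁄(𝓞 F)) (KG F M ιM) (KG F K ιK) → AnNonG p W K ∧ H13Z.SelNonT (W⁄K) p := by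
    intro hN
    obtain ⟨Φ, a1, a2, a3⟩ := non_KR hH hp hUM hL hMK hKL hUK hN
    exact ⟨non_ofV hH K _ hRK a1 a2 a3, non_abs hH hp K ιK (nonselR hH hp hL hU hMK hKL hN)⟩
  have hsel : H55P.SelTriv (W⁄K) p ↔ H55P.SelTriv (W⁄M) p ∧ NoRel p (W⁄(𝓞 F)) (KG F M ιM) (KG F K ιK) := by
    constructor
    · intro h
      have hN : NoRel p (W⁄(𝓞 F)) (KG F M ιM) (KG F K ιK) := by
        by_contra hN
        exact H13Z.not_selTriv _ p (hnon hN).2 h
      refine ⟨(sel_iff hH hp hL hUM M ιM hL.le).2 ?_, hN⟩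
      exact sel_downR hH hp hUM hL hMK hKL ((sel_iff hH hp hL hUM K ιK hKL).1 h)
    · rintro ⟨h, hN⟩
      refine (sel_iff hH hp hL hUM K ιK hKL).2 ?_
      exact (selRO hH hp hUM hB hL hMK hKL hUK hN ((sel_iff hH hp hL hUM M ιM hL.le).1 h)).1
  refine ⟨int_ofV hH hp K _ hRK hIK, hlval, hsel, ?_, hnon⟩
  rw [bsd_iff hH hp hL hUM K ιK hKL, bsd_iff hH hp hL hUM M ιM hL.le, hlval, hsel]
  tauto

end H35V
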