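import Mathlib
import Pool.Agent.Lib.H35V.Main
import Pool.Agent.Lib.H35V.AlmostO
import Pool.Agent.Lib.H28T.XMain
import Pool.Agent.Lib.H28I.A1
import Pool.Agent.Lib.H13R.K1
import Pool.Agent.Lib.H55W.Main
import Pool.Agent.Lib.H55W.PR
import Pool.Agent.Lib.H55W.EZM
import Pool.Agent.Lib.H55Y.Y5
import Pool.Agent.Lib.H55Y.Y6
import Pool.Agent.Lib.H55W.C4
import Pool.Agent.Lib.H55K.EX2
import Pool.Agent.Lib.H55K.FC2
import Pool.Agent.Lib.H55K.FC3

/-!
# The p-part of the Birch and Swinnerton-Dyer conjecture for the elliptic curves with complex multiplication in p-extensions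

F is an imaginary quadratic field of class number one, E an elliptic curve over the rationals with complex multiplication (over F)
by an order of F, given by a global minimal equation W (CM F W; all 13 orders of class number one).
p ≥ 5 is a prime number of good reduction: it does not divide the discriminant of W.

THE RELATIVE THEOREM. M and K are number fields, FM and FK the fields generated by F and M, F and K in the algebraic closure of F. FM is
contained in FK and FK is contained in a Galois extension L of FM of degree a power of p, abelian or not (L/ℚ need not be Galois, the degree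
of M is arbitrary). OkM: at the primes of FM which divide the discriminant of W and at which W has good reduction over FM, p does not divide
the number of points of the reduction of a minimal equation; for given M this is true for all but finitely many p (ok), and for all p if the
primes dividing the discriminant are unramified in FM (unr). NoRel: no prime v of FM which does not divide the discriminant and where p
divides the number of points of W over the residue field is ramified in FK (primes v above p are included).
LUnitG p W K: the L-series of W over K (Mathlib: WeierstrassCurve.LSeries) converges absolutely for Re s > 3/2, continues to Re s > 1/2,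
does not vanish at s = 1, and the algebraic part lG of the value at 1 is a p-adic unit. NT: W has no point of order p over M.
(gen, TowerP, OverP) No condition on the ramification: (dn) if the p-Selmer group over K is trivial, then it is trivial over M; (selnon) if
NoRel does not hold, then the classical p-Selmer group over K is not zero; (int) if NT holds, L(W/K, s) converges absolutely for Re s > 3/2
and continues to Re s > 1/2, and the algebraic part of the value at 1 is integral above p; (nt) NT holds if p is unramified in FM or if the
p-Selmer group over M is trivial.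
(rel, TowerO, OverB) If p is inert in F, the second ramification groups (lower numbering) of L over FM at the primes above p are trivial (for
example: p is unramified in L, or the inertia groups above p have order at most p and p is unramified in FM). (sel) The p-Selmer group over K
is trivial if and only if it is trivial over M and NoRel holds. (bsd) The same for the rank part and the p-part of the refined conjecture in
analytic rank 0 with trivial p-Selmer group. (lval) If NT holds, then LUnitG holds over K if and only if it holds over M and NoRel holds.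
(annon) If NT holds and NoRel does not hold, then the algebraic part of the L-value over K is divisible by all primes above p.
If L(W/M, 1) is not zero, then LUnitG p W M is true for all but finitely many primes p (gen).

THE ABSOLUTE THEOREM (abs, TowerA, OverA), M = ℚ. AnUnitG p W K (the analytic part): as LUnitG, with the analytic order of the
Tate-Shafarevich group (shaG: the number predicted by the refined conjecture) in the place of lG. (crit) The analytic part holds over K
if and only if it holds over the rationals and no prime v of F which does not divide the discriminant and where p divides the number of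
points of W over the residue field is ramified in FK (NoAn). (bsd) The analytic part over K implies that the p-Selmer group and the p-torsion
of the Tate-Shafarevich group over K are zero and that W(K) is finite of order prime to p: the rank part and the p-part of the refined
conjecture hold over K. (non) If NoAn does not hold, the algebraic part of the L-value is divisible by all primes above p and the classical
p-Selmer group is not zero. If L(W/ℚ, 1) is not zero, the analytic part over the rationals is true for all but finitely many primes p; for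
y^2 + y = x^3 it is true for all p ≥ 5.

(rich), (real), (link): for all F, W, p, the class of the fields K for which TowerA and NoAn hold (with p unramified in L) is large.
-/

open NumberField IsDedekindDomain WeierstrassCurve H55P H55K.TQ

namespace H35V

/-- W is a global minimal equation of an elliptic curve over the rationals with complex multiplication by the order of conductor f of F,
of class number one (H55Y.Cond): its period lattice is a multiple of the lattice of this order. -/
def CM (F : Type) [Field F] [NumberField F] [IQ F] (W : WeierstrassCurve ℤ) : Prop :=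
  W.Δ ≠ 0 ∧ H13D.MinZ W ∧ ∃ (f : ℕ) (Om : ℂ), H55Y.Cond F f ∧
    H55Y.PerO F f (-(eF F (W⁄(𝓞 F)).c₄) / 48) (-(eF F (W⁄(𝓞 F)).c₆) / 864) Om

/-- The conclusions for the prime p. -/
structure AtP (F : Type) [Field F] [NumberField F] [IQ F] (p : ℕ) (W : WeierstrassCurve ℤ) : Prop where
  rel : ∀ (M K : Type) [Field M] [NumberField M] [Field K] [NumberField K] (ιM : M →ₐ[ℚ] AlgebraicClosure F)
    (ιK : K →ₐ[ℚ] AlgebraicClosure F), TowerO F p W M K ιM ιK → H35U.OverB F p W M K ιM ιK
  gen : ∀ (M K : Type) [Field M] [NumberField M] [Field K] [NumberField K] (ιM : M →ₐ[ℚ] AlgebraicClosure F)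
    (ιK : K →ₐ[ℚ] AlgebraicClosure F), TowerP F p W M K ιM ιK → OverP F p W M K ιM ιK
  abs : ∀ (K : Type) [Field K] [NumberField K] (ιK : K →ₐ[ℚ] AlgebraicClosure F), TowerA F p K ιK → OverA F p W K ιK
  link : ∀ (K : Type) [Field K] [NumberField K], InPF (W⁄(𝓞 F)) p K → ∃ ιK : K →ₐ[ℚ] AlgebraicClosure F,
    TowerA F p K ιK ∧ NoAn p (W⁄(𝓞 F)) (KG F K ιK)
  rich : H28T.Rich (W⁄(𝓞 F)) p
  real : ∀ (H : Type) [Group H] [Finite H] (k : ℕ), Nat.card H = p ^ k → H28T.RealG (W⁄(𝓞 F)) p H

/-- The conclusions for all p together. -/
structure Almost (F : Type) [Field F] [NumberField F] [IQ F] (W : WeierstrassCurve ℤ) : Prop where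
  rat : LNz W ℚ → {p : ℕ | p.Prime ∧ ¬ AnUnitG p W ℚ}.Finite
  gen : ∀ (M : Type) [Field M] [NumberField M] (_ : M →ₐ[ℚ] AlgebraicClosure F), LNz W M → {p : ℕ | p.Prime ∧ ¬ H13R.LUnitG p W M}.Finite
  ok : ∀ (M : Type) [Field M] [NumberField M] (ιM : M →ₐ[ℚ] AlgebraicClosure F),
    {p : ℕ | p.Prime ∧ ¬ H55G.OkM p (W⁄(𝓞 F)) (KG F M ιM)}.Finite
  unr : ∀ (M : Type) [Field M] [NumberField M] (ιM : M →ₐ[ℚ] AlgebraicClosure F),
    (∀ v : HeightOneSpectrum (𝓞 F), (W⁄(𝓞 F)).Δ ∈ v.asIdeal → ¬ RamF (KG F M ιM) v.asIdeal) →
      ∀ p : ℕ, H55G.OkM p (W⁄(𝓞 F)) (KG F M ιM)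

theorem result :
    (∀ (F : Type) [Field F] [NumberField F] [IQ F] (W : WeierstrassCurve ℤ), CM F W →
      (∀ p : ℕ, p.Prime → 5 ≤ p → ¬ (p : ℤ) ∣ W.Δ → AtP F p W) ∧ Almost F W) ∧
    CM H55B.F EZ ∧ ∀ p : ℕ, p.Prime → 5 ≤ p → AnUnitG p EZ ℚ := by
  have hcub : ∀ (F : Type) [Field F] [NumberField F] [IQ F], ∀ w : 𝓞 F, w ^ 2 + w + 1 = 0 → ∀ n : ℤ, n ≠ 0 →
      ∃ κ : 𝓞 F → 𝓞 F, H55W.PRC (𝓞 F) 3 n (3 * n) (27 * n) κ := fun F _ _ _ w hw n hn => H55W.cub_F F IQ.deg w hw n hn
  refine ⟨fun F _ _ _ W' hC => ?_, ⟨by rw [H55W.ezm_disc]; norm_num, H55W.ezm_min, ?_⟩, fun p hp h5 => H55K.TQ.ex_an hp h5⟩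
  · rcases H55Y.y5_cases hC (hcub F) with ⟨Om, hper⟩ | ⟨W, Om, m, ψ, kap, e, t, u, lam, hΔ, hper, h⟩
    · obtain ⟨hΔ, hmin, -⟩ := hC
      obtain ⟨ψ, hH⟩ := H55W.base_all0 (hcub F) W' Om hΔ hper hmin
      refine ⟨fun p hp h5 hd => ?_, fun hL => ?_, fun M _ _ ιM hL => H55G.lunit_almostE hH M ιM hL,
        fun M _ _ ιM => okm_almost hH _, fun M _ _ ιM hU p => okm_unr hH _ hU⟩
      · have hP := H55W.prime_simple hΔ hper hp h5 hd
        exact ⟨fun M K _ _ _ _ ιM ιK hT => main_O hH hP M K ιM ιK hT, fun M K _ _ _ _ ιM ιK hT => main_PP hH hP M K ιM ιK hT,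
          fun K _ _ ιK hT => main_AA hH hP K ιK hT, fun K _ _ hK => link _ hp K hK,
          H28T.rich_of hH hP, fun H _ _ k hk => H28T.real_Q hH hP H k hk⟩
      · refine ((prime_almost (W'⁄(𝓞 F)) hH.data.ell).union (an_almost hH hL)).subset fun p hp => ?_
        obtain ⟨h1, h2⟩ := hp
        by_cases h3 : PrimeH F (W'⁄(𝓞 F)) p
        · exact Or.inr ⟨h1, fun h4 => h2 h4⟩
        · exact Or.inl ⟨h1, h3⟩
    · refine ⟨fun p hp h5 hd => ?_, fun hL => ?_, fun M _ _ ιM hL => H55G.lunit_almost_isoE h M ιM hL,
        fun M _ _ ιM => okm_almost_iso h _, fun M _ _ ιM hU p => okm_unr_iso h _ hU⟩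
      · have hP0 := H55W.prime_simple hΔ hper hp h5 fun h' => hd (H55Y.y6_dvd h hp h')
        have hP := (H28I.tw_prime h).2 hP0
        obtain ⟨r1, r2⟩ := H28I.rich_iso h hP
        exact ⟨fun M K _ _ _ _ ιM ιK hT => iso_O h hP M K ιM ιK hT, fun M K _ _ _ _ ιM ιK hT => iso_PP h hP M K ιM ιK hT,
          fun K _ _ ιK hT => iso_AA h hP K ιK hT, fun K _ _ hK => link _ hp K hK, r1, fun H _ _ k hk => r2 H k hk⟩
      · exact (H28I.almost_iso h hL).subset fun p hp => ⟨hp.1, fun h4 => hp.2 h4.2⟩
  · obtain ⟨Om, hper⟩ := H55W.ezm_per
    refine ⟨1, Om, Or.inl rfl, hper.ne, LF H55B.F, fun z => ?_, hper.g2, hper.g3⟩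
    rw [H55P.mem_LF]
    constructor
    · rintro ⟨y, rfl⟩
      exact ⟨0, y, by rw [Int.cast_zero, zero_add, Nat.cast_one, one_mul]⟩
    · rintro ⟨a, y, rfl⟩
      exact ⟨(a : 𝓞 H55B.F) + y, by rw [map_add, map_intCast, Nat.cast_one, one_mul]⟩

end H35V
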